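import Pool.Agent.R240.LL4
import Pool.Agent.W677.MB11
import Pool.Agent.W677.MB8
import Pool.Agent.Y736.HL6
import Pool.Agent.Y736.HD5

/-! # Consequences of an upper bound for the escape rate of the Mandelbrot set at a point -/

set_option autoImplicit false

namespace Pool.Agent.U334.PB

open Complex Metric Set Filter Topology MeasureTheory N62a1eb23
open Pool.Agent.H713R2 (IsExteriorMap)
open Pool.Agent.Y736.HD (Ang)

theorem vol_le_two_pi (ψ : ℂ → ℂ) (c₀ : ℂ) (r : ℝ) :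
    (volume (Ang ψ c₀ r)).toReal ≤ 2 * Real.pi := by
  have h := measure_mono (μ := volume) (Pool.Agent.Y736.HD.Ang_sub ψ c₀ r)
  rw [Real.volume_Ioc, sub_zero] at h
  have h2 := ENNReal.toReal_mono ENNReal.ofReal_ne_top h
  rwa [ENNReal.toReal_ofReal (by positivity)] at h2

/-- the harmonic measure of discs -/
theorem vol_bound {c₀ : ℂ} (hc₀ : c₀ ∈ multibrotSet 2) {A B p : ℝ} (hA : 0 < A) (hB : 0 < B)
    (hp : 0 < p)
    (h : ∀ ψ : ℂ → ℂ, IsExteriorMap (multibrotSet 2) ψ → ∀ w : ℂ, 1 < ‖w‖ → ‖w‖ ≤ 2 →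
      ‖w‖ - 1 ≤ B * Real.exp (-(A / ‖ψ w - c₀‖ ^ p))) :
    ∃ K : ℝ, 0 < K ∧ ∀ ψ : ℂ → ℂ, IsExteriorMap (multibrotSet 2) ψ → ∀ r : ℝ, 0 < r →
      (volume (Ang ψ c₀ r)).toReal ≤ K * Real.exp (-(A / (2 * r) ^ p)) := by
  have hpi := Real.pi_pos
  have hlog2 : 0 < Real.log 2 := Real.log_pos (by norm_num)
  obtain ⟨δ, hδ, hδ2⟩ := Pool.Agent.Y736.HD.green_cont hc₀ hlog2
  have hδp : 0 < δ ^ p := Real.rpow_pos_of_pos hδ p
  refine ⟨2 * Real.pi * B / Real.log 2 + 2 * Real.pi * Real.exp (A / δ ^ p), by positivity, ?_⟩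
  intro ψ hψ r hr
  have hrp : 0 < (2 * r) ^ p := Real.rpow_pos_of_pos (by linarith) p
  have he : 0 < Real.exp (-(A / (2 * r) ^ p)) := Real.exp_pos _
  rcases le_or_gt (2 * r) δ with h1 | h1
  · have h2 := Pool.Agent.Y736.HD.vol_le hψ hc₀ (r := r)
      (S := B * Real.exp (-(A / (2 * r) ^ p))) hr (by positivity) (by
      intro w hw hwr
      have h3 := hδ2 ψ hψ w hw (hwr.trans h1)
      have h4 : ‖w‖ ≤ 2 := (Real.log_le_log_iff (by linarith) (by norm_num)).1 h3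
      have h5 := Real.log_le_sub_one_of_pos (show 0 < ‖w‖ by linarith)
      have h6 : 0 < ‖ψ w - c₀‖ :=
        norm_pos_iff.2 (sub_ne_zero.2 (Pool.Agent.Y736.HD.psi_ne hψ hc₀ hw))
      have h7 : ‖ψ w - c₀‖ ^ p ≤ (2 * r) ^ p := Real.rpow_le_rpow h6.le hwr hp.le
      have h8 : 0 < ‖ψ w - c₀‖ ^ p := Real.rpow_pos_of_pos h6 p
      have h9 : A / (2 * r) ^ p ≤ A / ‖ψ w - c₀‖ ^ p := by gcongr
      have h10 : Real.exp (-(A / ‖ψ w - c₀‖ ^ p)) ≤ Real.exp (-(A / (2 * r) ^ p)) :=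
        Real.exp_le_exp.2 (by linarith)
      have h11 := h ψ hψ w hw h4
      nlinarith)
    refine h2.trans ?_
    have h3 : 2 * Real.pi * (B * Real.exp (-(A / (2 * r) ^ p))) / Real.log 2 =
        2 * Real.pi * B / Real.log 2 * Real.exp (-(A / (2 * r) ^ p)) := by ring
    rw [h3]
    have h4 : 0 ≤ 2 * Real.pi * Real.exp (A / δ ^ p) * Real.exp (-(A / (2 * r) ^ p)) := by
      positivity
    nlinarith
  · refine (vol_le_two_pi ψ c₀ r).trans ?_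
    have h2 : δ ^ p ≤ (2 * r) ^ p := Real.rpow_le_rpow hδ.le h1.le hp.le
    have h3 : A / (2 * r) ^ p ≤ A / δ ^ p := by gcongr
    have h4 : 1 ≤ Real.exp (A / δ ^ p) * Real.exp (-(A / (2 * r) ^ p)) := by
      rw [← Real.exp_add]
      exact Real.one_le_exp (by linarith)
    have h5 : 0 ≤ 2 * Real.pi * B / Real.log 2 * Real.exp (-(A / (2 * r) ^ p)) := by positivity
    nlinarith

/-- the number of the centres in discs -/
theorem ncard_eq (N : ℕ) (c₀ : ℂ) (r : ℝ) :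
    ({c : ℂ | ‖c - c₀‖ < r ∧ (fun z : ℂ => z ^ 2 + c)^[N + 1] 0 = 0}.ncard) =
      Pool.Agent.R240.LL.nz 2 N c₀ r := by
  unfold Pool.Agent.R240.LL.nz
  rw [← Set.ncard_coe_finset]
  congr 1
  ext c
  rw [Finset.mem_coe, Finset.mem_filter, Pool.Agent.R240.LL.mem_ZZ le_rfl]
  exact and_comm

/-- **Consequences of an upper bound for the escape rate.** -/
theorem flat_of {c₀ : ℂ} (hc₀ : c₀ ∈ multibrotSet 2) {A B p : ℝ} (hA : 0 < A) (hB : 0 < B)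
    (hp : 0 < p)
    (h : ∀ ψ : ℂ → ℂ, IsExteriorMap (multibrotSet 2) ψ → ∀ w : ℂ, 1 < ‖w‖ → ‖w‖ ≤ 2 →
      ‖w‖ - 1 ≤ B * Real.exp (-(A / ‖ψ w - c₀‖ ^ p))) :
    ∃ A' K : ℝ, 0 < A' ∧ 0 < K ∧
      (∀ (n : ℕ) (r : ℝ), 1 ≤ n → 0 < r →
        ({c : ℂ | ‖c - c₀‖ < r ∧ (fun z : ℂ => z ^ 2 + c)^[n] 0 = 0}.ncard : ℝ) ≤
          K * (n + 2 ^ n * Real.exp (-(A' / r ^ p)))) ∧
      ∀ ψ : ℂ → ℂ, IsExteriorMap (multibrotSet 2) ψ →
      (∀ w : ℂ, 1 < ‖w‖ → ‖w‖ ≤ 2 →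
        Real.log ‖w‖ ≤ K * Real.exp (-(A' / ‖ψ w - c₀‖ ^ p))) ∧
      (∀ r : ℝ, 0 < r → (volume (Ang ψ c₀ r)).toReal ≤ K * Real.exp (-(A' / r ^ p))) ∧
      (∀ F : ℂ → ℂ, ContinuousOn F {w | 1 ≤ ‖w‖} → (∀ w, 1 < ‖w‖ → F w = ψ w) →
        (c₀ ∈ frontier (multibrotSet 2) → ∃ ζ : ℂ, ‖ζ‖ = 1 ∧ F ζ = c₀) ∧
        ∀ ζ : ℂ, ‖ζ‖ = 1 → F ζ = c₀ → ∀ s : ℝ, 0 < s → s ≤ 1 →
          A' ≤ ‖F ((1 + s) * ζ) - F ζ‖ ^ p * Real.log (K / s)) := by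
  have hpi := Real.pi_gt_three
  have hlog2 : 0 < Real.log 2 := Real.log_pos (by norm_num)
  obtain ⟨K₁, hK₁, hvol⟩ := vol_bound hc₀ hA hB hp h
  have h2p : 1 ≤ (2 : ℝ) ^ p := Real.one_le_rpow (by norm_num) hp.le
  have h4p : (4 : ℝ) ^ p = 2 ^ p * 2 ^ p := by
    rw [← Real.mul_rpow (by norm_num) (by norm_num)]
    norm_num
  have h4p0 : 0 < (4 : ℝ) ^ p := by positivity
  have h4p1 : 1 ≤ (4 : ℝ) ^ p := Real.one_le_rpow (by norm_num) hp.le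
  have hKL := Pool.Agent.R240.LL.KL_pos
  obtain ⟨K, hK⟩ : ∃ K, K = K₁ + B + Pool.Agent.R240.LL.KL * Real.log 2 := ⟨_, rfl⟩
  have hKL2 : 0 < Pool.Agent.R240.LL.KL * Real.log 2 := by positivity
  have hK0 : 0 < K := by rw [hK]; positivity
  have hA4 : A / 4 ^ p ≤ A := div_le_self hA.le h4p1
  have hA2 : A / 4 ^ p ≤ A / 2 ^ p := by
    rw [h4p]
    gcongr
    nlinarith
  have hrp : ∀ r : ℝ, 0 < r → A / 4 ^ p / r ^ p = A / (2 * (2 * r)) ^ p := by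
    intro r hr
    rw [show 2 * (2 * r) = 4 * r by ring, Real.mul_rpow (by norm_num) hr.le, div_div]
  have hrp2 : ∀ r : ℝ, 0 < r → A / 4 ^ p / r ^ p ≤ A / (2 * r) ^ p := by
    intro r hr
    rw [Real.mul_rpow (by norm_num) hr.le, ← div_div]
    have : 0 < r ^ p := Real.rpow_pos_of_pos hr p
    gcongr
  refine ⟨A / 4 ^ p, K, by positivity, hK0, ?_, ?_⟩
  · intro n r hn hr
    obtain ⟨N, rfl⟩ : ∃ N, n = N + 1 := Nat.exists_eq_add_of_le' hn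
    obtain ⟨β, hβ⟩ := Pool.Agent.H713R2.exists_beta (d := 2) le_rfl
    obtain ⟨ψ, hψ⟩ : ∃ ψ, IsExteriorMap (multibrotSet 2) ψ :=
      ⟨_, Pool.Agent.H713R2.exteriorMap_of_beta hβ⟩
    have h1 := (Pool.Agent.R240.LL.law le_rfl hψ hc₀ N hr one_pos le_rfl).1
    rw [ncard_eq]
    have h2 := hvol _ hψ (2 * r) (by linarith)
    rw [← hrp r hr] at h2
    rw [show (1 + 1) * r = 2 * r by ring, div_one] at h1
    have h3 : (2 : ℝ) ^ N * ((volume (Ang ψ c₀ (2 * r))).toReal / (2 * Real.pi)) ≤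
        2 ^ (N + 1) * (K₁ * Real.exp (-(A / 4 ^ p / r ^ p))) := by
      have h4 : (volume (Ang ψ c₀ (2 * r))).toReal / (2 * Real.pi) ≤
          K₁ * Real.exp (-(A / 4 ^ p / r ^ p)) := by
        refine le_trans ?_ h2
        exact div_le_self ENNReal.toReal_nonneg (by linarith)
      have h5 : (2 : ℝ) ^ N ≤ 2 ^ (N + 1) := pow_le_pow_right₀ (by norm_num) (by omega)
      exact mul_le_mul h5 h4 (by positivity) (by positivity)
    have h4 : ((N + 1 : ℕ) : ℝ) * (Pool.Agent.R240.LL.KL * Real.log 2) ≤ (N + 1 : ℕ) * K := by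
      gcongr
      rw [hK]
      linarith
    have h5 : (2 : ℝ) ^ (N + 1) * (K₁ * Real.exp (-(A / 4 ^ p / r ^ p))) ≤
        K * (2 ^ (N + 1) * Real.exp (-(A / 4 ^ p / r ^ p))) := by
      have h6 : K₁ ≤ K := by rw [hK]; linarith
      have h7 : 0 ≤ (2 : ℝ) ^ (N + 1) * Real.exp (-(A / 4 ^ p / r ^ p)) := by positivity
      nlinarith
    push_cast at h1 h4 ⊢
    nlinarith
  · intro ψ hψ
    refine ⟨?_, ?_, ?_⟩
    · intro w hw hw2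
      have h1 := Real.log_le_sub_one_of_pos (show 0 < ‖w‖ by linarith)
      have h2 := h ψ hψ w hw hw2
      have h6 : 0 < ‖ψ w - c₀‖ :=
        norm_pos_iff.2 (sub_ne_zero.2 (Pool.Agent.Y736.HD.psi_ne hψ hc₀ hw))
      have h8 : 0 < ‖ψ w - c₀‖ ^ p := Real.rpow_pos_of_pos h6 p
      have h9 : A / 4 ^ p / ‖ψ w - c₀‖ ^ p ≤ A / ‖ψ w - c₀‖ ^ p := by gcongr
      have h10 : Real.exp (-(A / ‖ψ w - c₀‖ ^ p)) ≤ Real.exp (-(A / 4 ^ p / ‖ψ w - c₀‖ ^ p)) :=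
        Real.exp_le_exp.2 (by linarith)
      have h11 : B ≤ K := by rw [hK]; linarith
      calc Real.log ‖w‖ ≤ B * Real.exp (-(A / ‖ψ w - c₀‖ ^ p)) := h1.trans h2
        _ ≤ K * Real.exp (-(A / 4 ^ p / ‖ψ w - c₀‖ ^ p)) :=
          mul_le_mul h11 h10 (Real.exp_pos _).le hK0.le
    · intro r hr
      refine (hvol ψ hψ r hr).trans ?_
      have h10 : Real.exp (-(A / (2 * r) ^ p)) ≤ Real.exp (-(A / 4 ^ p / r ^ p)) :=
        Real.exp_le_exp.2 (by linarith [hrp2 r hr])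
      have h11 : K₁ ≤ K := by rw [hK]; linarith
      exact mul_le_mul h11 h10 (Real.exp_pos _).le hK0.le
    · intro F hF hE
      refine ⟨fun hfr => ?_, ?_⟩
      · rw [frontier_eq_closure_inter_closure] at hfr
        exact Pool.Agent.Y736.HL.exists_angle hc₀ hfr.2 hψ hF hE
      · intro ζ hζ hFζ s hs hs1
        have hn : ‖(1 + s : ℂ) * ζ‖ = 1 + s := by
          rw [norm_mul, hζ, mul_one]
          have : (1 + s : ℂ) = ((1 + s : ℝ) : ℂ) := by push_cast; rfl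
          rw [this, Complex.norm_real, Real.norm_of_nonneg (by linarith)]
        have hw : 1 < ‖(1 + s : ℂ) * ζ‖ := by rw [hn]; linarith
        have h1 := h ψ hψ _ hw (by rw [hn]; linarith)
        rw [hn] at h1
        rw [hE _ hw, hFζ]
        have h6 : 0 < ‖ψ ((1 + s : ℂ) * ζ) - c₀‖ :=
          norm_pos_iff.2 (sub_ne_zero.2 (Pool.Agent.Y736.HD.psi_ne hψ hc₀ hw))
        obtain ⟨X, hX⟩ : ∃ X, X = ‖ψ ((1 + s : ℂ) * ζ) - c₀‖ ^ p := ⟨_, rfl⟩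
        have h8 : 0 < X := by rw [hX]; exact Real.rpow_pos_of_pos h6 p
        rw [← hX] at h1 ⊢
        have h2 : Real.log s ≤ Real.log B - A / X := by
          have h3 : s ≤ B * Real.exp (-(A / X)) := by linarith
          have h4 := Real.log_le_log hs h3
          rw [Real.log_mul hB.ne' (Real.exp_pos _).ne', Real.log_exp] at h4
          linarith
        have h3 : Real.log B ≤ Real.log K := Real.log_le_log hB (by rw [hK]; linarith)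
        have h4 : A / X ≤ Real.log (K / s) := by
          rw [Real.log_div hK0.ne' hs.ne']
          linarith
        rw [div_le_iff₀ h8] at h4
        linarith

/-- the parabolic parameters -/
theorem parabolic {c₀ : ℂ} (hc₀ : c₀ ∈ multibrotSet 2) {N : ℕ} (hN : 1 ≤ N) {z₀ : ℂ}
    (hfix : (fun z : ℂ => z ^ 2 + c₀)^[N] z₀ = z₀)
    (hder : deriv ((fun z : ℂ => z ^ 2 + c₀)^[N]) z₀ = 1)
    (hlim : Tendsto (fun k : ℕ => (fun z : ℂ => z ^ 2 + c₀)^[N * k] 0) atTop (𝓝 z₀)) :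
    ∃ A : ℝ, 0 < A ∧ ∀ ψ : ℂ → ℂ, IsExteriorMap (multibrotSet 2) ψ → ∀ w : ℂ, 1 < ‖w‖ →
      ‖w‖ ≤ 2 → ‖w‖ - 1 ≤ 12 * Real.exp (-(A / ‖ψ w - c₀‖ ^ (1 / 2 : ℝ))) := by
  obtain ⟨C, hC⟩ := Pool.Agent.Y736.HL.parabolic_LL hc₀ hN hfix hder hlim
  obtain ⟨A, hA, h⟩ := Pool.Agent.Y736.HL.upper_exp hc₀ hC
  refine ⟨A, hA, fun ψ hψ w hw hw2 => ?_⟩
  rw [← Real.sqrt_eq_rpow]
  exact h ψ hψ w hw hw2

/-- the parameter `-3/4` -/
theorem basilica : ∃ A : ℝ, 0 < A ∧ ∀ ψ : ℂ → ℂ, IsExteriorMap (multibrotSet 2) ψ → ∀ w : ℂ,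
    1 < ‖w‖ → ‖w‖ ≤ 2 →
      ‖w‖ - 1 ≤ Real.exp 1 * Real.exp (-(A / ‖ψ w - (-3 / 4)‖ ^ (1 : ℝ))) := by
  obtain ⟨a, ha, h⟩ := Pool.Agent.W677.MB.dist34
  refine ⟨a, ha, fun ψ hψ w hw hw2 => ?_⟩
  have h1 := h ψ hψ w hw hw2
  have e : ψ w - (-3 / 4) = ψ w + 3 / 4 := by ring
  rw [e, Real.rpow_one, ← Real.exp_add]
  have h6 : 0 < ‖ψ w + 3 / 4‖ := by
    rw [← e]
    exact norm_pos_iff.2 (sub_ne_zero.2 (Pool.Agent.Y736.HD.psi_ne hψ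
      Pool.Agent.W677.MB.mem34 hw))
  have h0 : 0 < ‖w‖ - 1 := by linarith
  rw [← Real.log_le_iff_le_exp h0]
  have h2 : a / ‖ψ w + 3 / 4‖ ≤ 1 + Real.log (1 / (‖w‖ - 1)) := by
    rw [div_le_iff₀ h6]
    linarith
  rw [one_div, Real.log_inv] at h2
  linarith

/-- points outside of the Mandelbrot set which are close to `-3/4` and escape rapidly -/
theorem sharp34 : ∃ C : ℝ, 0 < C ∧ ∀ ψ : ℂ → ℂ, IsExteriorMap (multibrotSet 2) ψ →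
    ∀ ρ : ℝ, 0 < ρ → ρ ≤ 1 → ∃ w : ℂ, 1 < ‖w‖ ∧ ‖ψ w - (-3 / 4)‖ ≤ ρ ∧
      Real.exp (-(C / ρ)) ≤ ‖w‖ - 1 := by
  obtain ⟨C, hC, h⟩ := Pool.Agent.W677.MB.near34'
  refine ⟨C, hC, fun ψ hψ ρ hρ hρ1 => ?_⟩
  obtain ⟨w, hw, h1, h2⟩ := h ψ hψ ρ hρ hρ1
  refine ⟨w, hw, ?_, ?_⟩
  · rwa [show ψ w - (-3 / 4) = ψ w + 3 / 4 by ring]
  · have h0 : 0 < ‖w‖ - 1 := by linarith
    rw [one_div, Real.log_inv] at h2
    rw [← Real.le_log_iff_exp_le h0]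
    linarith

theorem frontier34 : (-3 / 4 : ℂ) ∈ frontier (multibrotSet 2) := by
  rw [frontier_eq_closure_inter_closure]
  refine ⟨subset_closure Pool.Agent.W677.MB.mem34, ?_⟩
  obtain ⟨C, hC, h⟩ := sharp34
  obtain ⟨β, hβ⟩ := Pool.Agent.H713R2.exists_beta (d := 2) le_rfl
  obtain ⟨ψ, hψ⟩ : ∃ ψ, IsExteriorMap (multibrotSet 2) ψ :=
    ⟨_, Pool.Agent.H713R2.exteriorMap_of_beta hβ⟩
  rw [Metric.mem_closure_iff]
  intro ε hε
  obtain ⟨w, hw, h1, -⟩ := h ψ hψ (min (ε / 2) 1) (by positivity) (min_le_right _ _)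
  refine ⟨ψ w, ?_, ?_⟩
  · have : ψ w ∈ ψ '' {z | 1 < ‖z‖} := ⟨w, hw, rfl⟩
    rwa [hψ.image] at this
  · rw [dist_comm, dist_eq_norm]
    have h2 := min_le_left (ε / 2) 1
    linarith

end Pool.Agent.U334.PB
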